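import Mathlib

set_option autoImplicit false

/-!
# Exponentials of locally nilpotent derivations, as polynomials
-/

namespace Pool.Agent.TameExp

open Finset Polynomial

variable {A : Type} [CommRing A] [Algebra ℂ A]

/-- Leibniz rule for iterates. -/
theorem iter_mul (D : Derivation ℂ A A) (n : ℕ) (a b : A) :
    (⇑D)^[n] (a * b) = ∑ ij ∈ antidiagonal n, n.choose ij.1 • ((⇑D)^[ij.1] a * (⇑D)^[ij.2] b) := by
  induction n with
  | zero => simp
  | succ n ih =>
    rw [sum_antidiagonal_choose_succ_nsmul (M := A) (fun i j => (⇑D)^[i] a * (⇑D)^[j] b) n]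
    simp only [Function.iterate_succ_apply', ih, map_sum, map_nsmul, Derivation.leibniz, smul_eq_mul,
      smul_add, sum_add_distrib, add_right_inj]
    refine sum_congr rfl fun ⟨i, j⟩ hij ↦ ?_
    rw [n.choose_symm_of_eq_add (mem_antidiagonal.1 hij).symm]
    simp only []
    rw [mul_comm]

theorem iter_add (D : Derivation ℂ A A) (n : ℕ) (a b : A) :
    (⇑D)^[n] (a + b) = (⇑D)^[n] a + (⇑D)^[n] b := by
  induction n with
  | zero => simp
  | succ n ih => simp only [Function.iterate_succ_apply', ih, map_add]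

theorem iter_smul (D : Derivation ℂ A A) (n : ℕ) (c : ℂ) (a : A) :
    (⇑D)^[n] (c • a) = c • (⇑D)^[n] a := by
  induction n with
  | zero => simp
  | succ n ih => rw [Function.iterate_succ_apply', ih, Derivation.map_smul,
      Function.iterate_succ_apply']

theorem iter_zero (D : Derivation ℂ A A) (n : ℕ) : (⇑D)^[n] (0 : A) = 0 := by
  induction n with
  | zero => simp
  | succ n ih => simp only [Function.iterate_succ_apply', ih, map_zero]

theorem iter_le (D : Derivation ℂ A A) {m n : ℕ} (h : m ≤ n) {a : A} (ha : (⇑D)^[m] a = 0) :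
    (⇑D)^[n] a = 0 := by
  obtain ⟨k, rfl⟩ := Nat.exists_eq_add_of_le h
  rw [add_comm, Function.iterate_add_apply, ha, iter_zero]

/-- `D` is locally nilpotent. -/
def LNil (D : Derivation ℂ A A) : Prop := ∀ a : A, ∃ N : ℕ, (⇑D)^[N] a = 0

theorem iter_mul_zero (D : Derivation ℂ A A) {m n : ℕ} {a b : A} (ha : (⇑D)^[m] a = 0)
    (hb : (⇑D)^[n] b = 0) : (⇑D)^[m + n] (a * b) = 0 := by
  rw [iter_mul]
  refine sum_eq_zero fun ⟨i, j⟩ hij ↦ ?_
  have h := mem_antidiagonal.1 hij
  simp only at h ⊢
  rcases le_or_gt m i with h1 | h1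
  · rw [iter_le D h1 ha, zero_mul, smul_zero]
  · rw [iter_le D (by omega : n ≤ j) hb, mul_zero, smul_zero]

/-- The elements killed by a power of `D` form a subalgebra. -/
def nilAlg (D : Derivation ℂ A A) : Subalgebra ℂ A where
  carrier := {a | ∃ N : ℕ, (⇑D)^[N] a = 0}
  mul_mem' := by
    rintro a b ⟨m, hm⟩ ⟨n, hn⟩
    exact ⟨m + n, iter_mul_zero D hm hn⟩
  add_mem' := by
    rintro a b ⟨m, hm⟩ ⟨n, hn⟩
    exact ⟨m + n, by rw [iter_add, iter_le D (by omega) hm, iter_le D (by omega) hn, add_zero]⟩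
  algebraMap_mem' := fun c => ⟨1, by simp⟩

/-- `Phi p = ∑ D^k(p)/k! T^k`. -/
noncomputable def Phi (D : Derivation ℂ A A) (hD : LNil D) (p : A) : A[X] :=
  ∑ k ∈ range (hD p).choose, monomial k (((k.factorial : ℂ)⁻¹) • (⇑D)^[k] p)

theorem Phi_coeff (D : Derivation ℂ A A) (hD : LNil D) (p : A) (k : ℕ) :
    (Phi D hD p).coeff k = ((k.factorial : ℂ)⁻¹) • (⇑D)^[k] p := by
  unfold Phi
  rw [finsetSum_coeff]
  simp only [coeff_monomial]
  rw [sum_ite_eq' (range _) k]
  split_ifs with h
  · rfl
  · rw [iter_le D (by simpa using h) (hD p).choose_spec, smul_zero]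

theorem Phi_add (D : Derivation ℂ A A) (hD : LNil D) (p q : A) :
    Phi D hD (p + q) = Phi D hD p + Phi D hD q := by
  ext k
  rw [coeff_add, Phi_coeff, Phi_coeff, Phi_coeff, iter_add, smul_add]

theorem Phi_mul (D : Derivation ℂ A A) (hD : LNil D) (p q : A) :
    Phi D hD (p * q) = Phi D hD p * Phi D hD q := by
  ext k
  rw [coeff_mul, Phi_coeff, iter_mul, smul_sum]
  refine sum_congr rfl fun ⟨i, j⟩ hij ↦ ?_
  have h := mem_antidiagonal.1 hij
  simp only at h ⊢
  rw [Phi_coeff, Phi_coeff, smul_mul_smul_comm, ← Nat.cast_smul_eq_nsmul ℂ, smul_smul]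
  congr 1
  subst h
  rw [Nat.cast_choose ℂ (Nat.le_add_right i j), Nat.add_sub_cancel_left]
  have h1 : ((i + j).factorial : ℂ) ≠ 0 := by exact_mod_cast Nat.factorial_ne_zero _
  have h2 : (i.factorial : ℂ) ≠ 0 := by exact_mod_cast Nat.factorial_ne_zero _
  have h3 : (j.factorial : ℂ) ≠ 0 := by exact_mod_cast Nat.factorial_ne_zero _
  field_simp

theorem Phi_const (D : Derivation ℂ A A) (hD : LNil D) {p : A} (hp : D p = 0) :
    Phi D hD p = C p := by
  ext k
  rw [Phi_coeff]
  rcases k with _ | k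
  · simp
  · rw [Function.iterate_succ_apply, hp, iter_zero, smul_zero, coeff_C_succ]

/-- `exp (f D)` for `f` in the kernel, as an algebra homomorphism. -/
noncomputable def expHom (D : Derivation ℂ A A) (hD : LNil D) (f : A) : A →ₐ[ℂ] A where
  toFun p := (Phi D hD p).eval f
  map_one' := by rw [Phi_const D hD (by simp), eval_C]
  map_mul' p q := by rw [Phi_mul, eval_mul]
  map_zero' := by rw [Phi_const D hD (by simp), eval_C]
  map_add' p q := by rw [Phi_add, eval_add]
  commutes' c := by rw [Phi_const D hD (by simp), eval_C]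

theorem expHom_apply (D : Derivation ℂ A A) (hD : LNil D) (f p : A) :
    expHom D hD f p = (Phi D hD p).eval f := rfl

theorem expHom_zero (D : Derivation ℂ A A) (hD : LNil D) (p : A) : expHom D hD 0 p = p := by
  rw [expHom_apply, ← coeff_zero_eq_eval_zero, Phi_coeff]
  simp

theorem expHom_const (D : Derivation ℂ A A) (hD : LNil D) (f : A) {p : A} (hp : D p = 0) :
    expHom D hD f p = p := by
  rw [expHom_apply, Phi_const D hD hp, eval_C]

theorem hasse_Phi (D : Derivation ℂ A A) (hD : LNil D) (p : A) (k : ℕ) :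
    hasseDeriv k (Phi D hD p) = ((k.factorial : ℂ)⁻¹) • Phi D hD ((⇑D)^[k] p) := by
  ext j
  rw [hasseDeriv_coeff, coeff_smul, Phi_coeff, Phi_coeff, smul_smul, ← Function.iterate_add_apply,
    ← nsmul_eq_mul, ← Nat.cast_smul_eq_nsmul ℂ, smul_smul]
  congr 1
  rw [Nat.cast_choose ℂ (Nat.le_add_left k j), Nat.add_sub_cancel]
  have h1 : ((j + k).factorial : ℂ) ≠ 0 := by exact_mod_cast Nat.factorial_ne_zero _
  have h2 : (k.factorial : ℂ) ≠ 0 := by exact_mod_cast Nat.factorial_ne_zero _
  have h3 : (j.factorial : ℂ) ≠ 0 := by exact_mod_cast Nat.factorial_ne_zero _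
  field_simp

theorem expHom_comp (D : Derivation ℂ A A) (hD : LNil D) (f g : A) (hf : D f = 0) (p : A) :
    expHom D hD g (expHom D hD f p) = expHom D hD (f + g) p := by
  have key : (Phi D hD p).map (expHom D hD g : A →+* A) = taylor g (Phi D hD p) := by
    ext k
    rw [coeff_map, taylor_coeff, Phi_coeff, hasse_Phi, eval_smul]
    change expHom D hD g _ = _
    rw [map_smul, expHom_apply]
  rw [expHom_apply D hD f p, expHom_apply D hD (f + g) p]
  have h2 : expHom D hD g ((Phi D hD p).eval f) =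
      ((Phi D hD p).map (expHom D hD g : A →+* A)).eval (expHom D hD g f) := by
    rw [eval_map]
    exact (eval₂_at_apply (expHom D hD g : A →+* A) f).symm
  rw [h2, key, expHom_const D hD g hf, taylor_eval]

/-- Transport of exponentials under an algebra automorphism commuting with `D`. -/
theorem expHom_conj (D : Derivation ℂ A A) (hD : LNil D) (B : A ≃ₐ[ℂ] A)
    (hB : ∀ p, B (D p) = D (B p)) (f p : A) :
    B (expHom D hD f p) = expHom D hD (B f) (B p) := by
  have hk : ∀ (k : ℕ) (p : A), B ((⇑D)^[k] p) = (⇑D)^[k] (B p) := by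
    intro k
    induction k with
    | zero => intro p; simp
    | succ k ih =>
      intro p
      rw [Function.iterate_succ_apply', Function.iterate_succ_apply', hB, ih]
  have key : (Phi D hD p).map ((B : A →ₐ[ℂ] A) : A →+* A) = Phi D hD (B p) := by
    ext k
    rw [coeff_map, Phi_coeff, Phi_coeff, ← hk]
    change B _ = _
    rw [map_smul]
  rw [expHom_apply, expHom_apply, ← key, eval_map]
  exact (eval₂_at_apply ((B : A →ₐ[ℂ] A) : A →+* A) f).symm

/-- iterates of `f • D` -/
theorem iter_smulD (D : Derivation ℂ A A) (f : A) (hf : D f = 0) (k : ℕ) (p : A) :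
    (⇑(f • D))^[k] p = f ^ k * (⇑D)^[k] p := by
  induction k with
  | zero => simp
  | succ k ih =>
    have h1 : D (f ^ k) = 0 := by
      rw [Derivation.leibniz_pow, hf, smul_zero, smul_zero]
    rw [Function.iterate_succ_apply', ih, Function.iterate_succ_apply', Derivation.smul_apply,
      Derivation.leibniz, h1, smul_zero, add_zero, smul_eq_mul, smul_eq_mul, pow_succ]
    ring

theorem lnil_smul (D : Derivation ℂ A A) (hD : LNil D) (f : A) (hf : D f = 0) : LNil (f • D) := by
  intro p
  obtain ⟨N, hN⟩ := hD p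
  exact ⟨N, by rw [iter_smulD D f hf, hN, mul_zero]⟩

/-- `expHom D f` is the exponential of `f • D`. -/
theorem expHom_eq_sum (D : Derivation ℂ A A) (hD : LNil D) (f : A) (hf : D f = 0) (p : A) (N : ℕ)
    (hN : (⇑(f • D))^[N] p = 0) :
    expHom D hD f p = ∑ k ∈ range N, ((k.factorial : ℂ)⁻¹) • (⇑(f • D))^[k] p := by
  obtain ⟨M, hM⟩ := hD p
  have h1 : expHom D hD f p =
      ∑ k ∈ range (max M N + 1), ((k.factorial : ℂ)⁻¹) • (⇑(f • D))^[k] p := by
    rw [expHom_apply, eval_eq_sum_range' (n := max M N + 1)]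
    · refine sum_congr rfl fun k _ ↦ ?_
      rw [Phi_coeff, iter_smulD D f hf, smul_mul_assoc, mul_comm]
    · by_cases h0 : Phi D hD p = 0
      · rw [h0]
        simp
      · rw [natDegree_lt_iff_degree_lt h0, degree_lt_iff_coeff_zero]
        intro m hm
        rw [Phi_coeff, iter_le D (le_trans (le_max_left M N) (by omega)) hM, smul_zero]
  rw [h1]
  symm
  apply sum_subset (range_mono (by omega))
  intro k _ hk
  rw [iter_le (f • D) (by simpa using hk) hN, smul_zero]

end Pool.Agent.TameExp
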